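import Pool.Agent.Q106.CH.Gold4
import Pool.Agent.Q120.GM.Exists

/-!
# MP_c6d112_nt: sums of two members of constellations in the sieved models, along every sequence

The sieved model of level `Q`: a random set `A` which contains the integers `n` coprime to `Q` independently with
probability `(Q / φ(Q)) / log n` (at most `1`), and no others (`IsModel μ (level Q) A`; `Q = 1` is Cramér's model).
For EVERY sequence of different numbers `N_0, N_1, ...` and every finite family of patterns and windows, the vectors of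
the deviations of the numbers of the representations `N_n = m + (N_n - m)` with all `m + h` (`h ∈ H_i`) and all
`N_n - m + h` (`h ∈ H'_i`) in `A` and `m` in the window, from the predictions, divided by the square roots of
`2 · prediction · log n`, almost surely approach the closed unit ball and are dense in it, and the number of the `n ≤ x`
for which the vector is near `d` is `x^(1 - |d|^2 + o(1))`.
-/

set_option autoImplicit false

namespace Pool.Agent.Results.MP_c6d112_nt.DeviationsAlongSequences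

open Finset MeasureTheory ProbabilityTheory Filter
open scoped Topology
open Pool.Agent.Q120.GM (IsModel level)

/-- The number of the `m` with `a ≤ m < b` such that all `m + h` (`h ∈ H`) and all `N - m + h` (`h ∈ H'`) are in `A`.
For `H = H' = {0, 2}`: the representations `N = m + m'`, `m, m'` lower members of twins of `A`, `a ≤ m < b`. -/
noncomputable def count (A : Set ℕ) (H H' : Finset ℕ) (N a b : ℕ) : ℝ :=
  ({m : ℕ | a ≤ m ∧ m < b ∧ (∀ h ∈ H, m + h ∈ A) ∧ ∀ h ∈ H', N - m + h ∈ A}.ncard : ℝ)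

/-- The singular series of level `Q`: `(Q / φ(Q)) ^ (|H| + |H'|)` times the proportion of the residues `m` modulo `Q`
such that all `m + h` (`h ∈ H`) and all `N - m + h` (`h ∈ H'`) are coprime to `Q` (`N - m` is the same residue as
`N + (Q - 1) m`). -/
noncomputable def series (Q : ℕ) (H H' : Finset ℕ) (N : ℕ) : ℝ :=
  (((range Q).filter (fun m => (∀ h ∈ H, (m + h).Coprime Q) ∧ ∀ h ∈ H', (N + (Q - 1) * m + h).Coprime Q)).card : ℝ) / Q *
    ((Q : ℝ) / Nat.totient Q) ^ (H.card + H'.card)

/-- The predicted number. -/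
noncomputable def predicted (Q : ℕ) (H H' : Finset ℕ) (N a b : ℕ) : ℝ :=
  series Q H H' N * ∑ m ∈ Ico a b,
    (∏ h ∈ H, (Real.log ((m + h : ℕ) : ℝ))⁻¹) * ∏ h ∈ H', (Real.log ((N - m + h : ℕ) : ℝ))⁻¹

/-- The normalized deviation of the number for the pattern `H, H'`, the number `N n` and the window `[a n, b n)`. -/
noncomputable def deviation (A : Set ℕ) (Q : ℕ) (H H' : Finset ℕ) (N a b : ℕ → ℕ) (n : ℕ) : ℝ :=
  (count A H H' (N n) (a n) (b n) - predicted Q H H' (N n) (a n) (b n)) /
    Real.sqrt (2 * predicted Q H H' (N n) (a n) (b n) * Real.log n)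

/-- Admissible data: patterns `H i, H' i` with `0 ∈ H i`, targets `N n ≥ n`, windows `[a n i, b n i)` in `[3, N n / 2]`.
No two of the numbers counted are the same (`uniq`), the singular series are positive, and the lengths of the windows
are between `M n ≥ (N n)^δ` and `(M n)^(3/2 - δ)`. -/
structure Data (Q : ℕ) {r : ℕ} (H H' : Fin r → Finset ℕ) (N : ℕ → ℕ) (a b : ℕ → Fin r → ℕ) (M : ℕ → ℝ) (δ : ℝ) : Prop where
  pos : 0 < δ
  zero : ∀ i, 0 ∈ H i
  uniq : ∀ n n' i i', H i = H i' → (H' i).image (fun h => N n + h) = (H' i').image (fun h => N n' + h) →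
    n = n' ∧ (i = i' ∨ Disjoint (Ico (a n i) (b n i)) (Ico (a n i') (b n i')))
  grow : ∀ n, n ≤ N n
  sing : ∀ n i, 0 < series Q (H i) (H' i) (N n)
  win : ∀ n i, 3 ≤ a n i ∧ a n i ≤ b n i ∧ 2 * b n i ≤ N n
  size : ∀ n, (N n : ℝ) ^ δ ≤ M n
  low : ∀ n i, M n ≤ (b n i : ℝ) - a n i
  high : ∀ n i, (b n i : ℝ) - a n i ≤ M n ^ (3 / 2 - δ)

/-- The law of a sequence of vectors: it approaches the closed unit ball, all points of the closed unit ball are limit
points, and the number of the `n ≤ x` for which the vector is near `d`, `|d| < 1`, is `x^(1 - |d|^2 + o(1))`. -/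
def Law {r : ℕ} (D : ℕ → Fin r → ℝ) : Prop :=
  (∀ ε > 0, ∀ᶠ n in atTop, ∑ i, D n i ^ 2 ≤ 1 + ε) ∧
  (∀ d : Fin r → ℝ, ∑ i, d i ^ 2 ≤ 1 → ∀ ε > 0, ∃ᶠ n in atTop, ∀ i, |D n i - d i| < ε) ∧
  ∀ d : Fin r → ℝ, ∑ i, d i ^ 2 < 1 → ∀ δ > 0, ∃ ε₀ > 0, ∀ ε, 0 < ε → ε ≤ ε₀ → ∀ᶠ x : ℕ in atTop,
    (x : ℝ) ^ (1 - ∑ i, d i ^ 2 - δ) ≤ ({n : ℕ | n ≤ x ∧ ∀ i, |D n i - d i| < ε}.ncard : ℝ) ∧
    ({n : ℕ | n ≤ x ∧ ∀ i, |D n i - d i| < ε}.ncard : ℝ) ≤ (x : ℝ) ^ (1 - ∑ i, d i ^ 2 + δ)

/-- **Sums of two members of constellations, along every sequence.** -/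
theorem general {Ω : Type} [MeasurableSpace Ω] {μ : Measure Ω} [IsProbabilityMeasure μ] {A : Ω → Set ℕ} {Q : ℕ}
    (hQ : 1 ≤ Q) (hA : IsModel μ (level Q) A) {r : ℕ} {H H' : Fin r → Finset ℕ} {N : ℕ → ℕ} {a b : ℕ → Fin r → ℕ}
    {M : ℕ → ℝ} {δ : ℝ} (hD : Data Q H H' N a b M δ) :
    ∀ᵐ ω ∂μ, Law (fun n i => deviation (A ω) Q (H i) (H' i) N (fun n => a n i) (fun n => b n i) n) := by
  -- a smaller exponent
  obtain ⟨δ', hδ'⟩ : ∃ δ', δ' = min δ (1 / 2) := ⟨_, rfl⟩
  have h0 : 0 < δ' := by rw [hδ']; exact lt_min hD.pos (by norm_num)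
  have h1 : δ' ≤ 1 / 2 := by rw [hδ']; exact min_le_right _ _
  have h2 : δ' ≤ δ := by rw [hδ']; exact min_le_left _ _
  rcases Nat.eq_zero_or_pos r with hr | hr
  · subst hr
    have hall : ∀ D : ℕ → Fin 0 → ℝ, Law D := by
      intro D
      refine ⟨fun ε hε => Eventually.of_forall (fun n => ?_), fun d _ ε _ => Frequently.of_forall (fun n i => i.elim0),
        fun d hd δ hδ => ⟨1, one_pos, fun ε _ _ => ?_⟩⟩
      · simp only [univ_eq_empty, sum_empty]
        linarith
      · have e1 : ∀ x : ℕ, {n : ℕ | n ≤ x ∧ ∀ i : Fin 0, |D n i - d i| < ε} = Set.Iic x := by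
          intro x
          ext n
          simp
        simp only [e1, univ_eq_empty, sum_empty, sub_zero]
        have e2 : ∀ x : ℕ, (Set.Iic x).ncard = x + 1 := by
          intro x
          rw [← Finset.coe_Iic, Set.ncard_coe_finset, Nat.card_Iic]
        have e3 : Tendsto (fun x : ℕ => (x : ℝ) ^ δ) atTop atTop := (tendsto_rpow_atTop hδ).comp tendsto_natCast_atTop_atTop
        filter_upwards [e3.eventually_ge_atTop 2, eventually_ge_atTop 1] with x h3 h4
        rw [e2]
        have hx : (1 : ℝ) ≤ x := by exact_mod_cast h4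
        have h5 : (x : ℝ) ^ (1 - δ) ≤ (x : ℝ) ^ (1 : ℝ) := Real.rpow_le_rpow_of_exponent_le hx (by linarith)
        rw [Real.rpow_one] at h5
        have h6 : (x : ℝ) ^ (1 + δ) = x * (x : ℝ) ^ δ := by
          rw [Real.rpow_add (by linarith), Real.rpow_one]
        rw [h6]
        push_cast
        constructor
        · linarith
        · nlinarith
    exact Eventually.of_forall (fun ω => hall _)
  · have hi : Fin r := ⟨0, hr⟩
    have hN1 : ∀ n, 1 ≤ N n := by
      intro n
      have := hD.win n hi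
      omega
    have hM1 : ∀ n, 1 ≤ M n := by
      intro n
      refine (Real.one_le_rpow ?_ hD.pos.le).trans (hD.size n)
      exact_mod_cast hN1 n
    have hG : Pool.Agent.Q106.CH.GD Q H H' N a b M δ' :=
      { zero := hD.zero
        uniq := hD.uniq
        grow := hD.grow
        sing := hD.sing
        win := hD.win
        size := fun n => (Real.rpow_le_rpow_of_exponent_le (by exact_mod_cast hN1 n) h2).trans (hD.size n)
        low := hD.low
        high := fun n i => (hD.high n i).trans (Real.rpow_le_rpow_of_exponent_le (hM1 n) (by linarith)) }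
    exact Pool.Agent.Q106.CH.g_law hA hG hQ h0 h1

/-- **Result.** The models exist, and for EVERY admissible sequence of targets, patterns and windows the law holds almost
surely. -/
theorem result (Q : ℕ) (hQ : 1 ≤ Q) :
    (∃ (Ω : Type) (_ : MeasurableSpace Ω) (μ : Measure Ω) (_ : IsProbabilityMeasure μ) (A : Ω → Set ℕ),
      IsModel μ (level Q) A) ∧
    ∀ (Ω : Type) (_ : MeasurableSpace Ω) (μ : Measure Ω) (_ : IsProbabilityMeasure μ) (A : Ω → Set ℕ),
      IsModel μ (level Q) A → ∀ (r : ℕ) (H H' : Fin r → Finset ℕ) (N : ℕ → ℕ) (a b : ℕ → Fin r → ℕ) (M : ℕ → ℝ) (δ : ℝ),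
        Data Q H H' N a b M δ →
        ∀ᵐ ω ∂μ, Law (fun n i => deviation (A ω) Q (H i) (H' i) N (fun n => a n i) (fun n => b n i) n) := by
  refine ⟨⟨ℕ → Bool, inferInstance, Pool.Agent.Q120.GM.prodMeasure (level Q), inferInstance,
    Pool.Agent.Q120.GM.trueSet, Pool.Agent.Q120.GM.isModel (level Q) (fun n => Pool.Agent.Q120.GM.level_nonneg Q n)
      (fun n => Pool.Agent.Q120.GM.level_le_one Q n)⟩, ?_⟩
  intro Ω _ μ _ A hA r H H' N a b M δ hD
  exact general hQ hA hD

end Pool.Agent.Results.MP_c6d112_nt.DeviationsAlongSequences
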