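import Pool.Agent.Q117.LF.Main3
import Pool.Agent.Q117.LF.Cnt
import Pool.Agent.Q117.LF.T55

/-!
MP_c6d112_nt (sums of two twin primes): every large even number is the sum of two members of almost twin prime pairs, both pairs isolated.
-/

set_option autoImplicit false

namespace Pool.Agent.Results.MP_c6d112_nt.IsolatedPairs

/-- the scale of Rankin -/
noncomputable def R (X : ℝ) : ℝ :=
  Real.log X * Real.log (Real.log X) * Real.log (Real.log (Real.log (Real.log X))) / (Real.log (Real.log (Real.log X))) ^ 2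

/-- all prime factors of `m` are `> z` (so `0` is not rough) -/
def Rough (z : ℝ) (m : ℤ) : Prop := ∀ p : ℕ, p.Prime → (p : ℤ) ∣ m → z < p

/-- at most two prime factors (with multiplicity), all `> z` -/
def AtMostTwo (z : ℝ) (m : ℤ) : Prop := m.natAbs.primeFactorsList.length ≤ 2 ∧ Rough z m

/-- the two pairs `{x, x + a}`, `{N - x, N - x + b}` with `x + (N - x) = N`, `a, b = ± 2` -/
def member (N : ℕ) (a b : ℤ) (x : ℕ) : Fin 4 → ℤ := ![(x : ℤ), x + a, (N : ℤ) - x, (N : ℤ) - x + b]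

/-- every integer `y + s`, `|s| ≤ D`, `s ≠ 0`, `s ≠ a`, `s ∉ Z`, has a prime factor `≤ z` -/
def PairIsolated (D z : ℝ) (a : ℤ) (Z : Finset ℤ) (y : ℤ) : Prop := ∀ s : ℤ, |(s : ℝ)| ≤ D → s ≠ 0 → s ≠ a → s ∉ Z → ¬ Rough z (y + s)

/-- at most three exceptional shifts `s`, and only if `N + s` or `N + s + v` has at least `c log N / loglog N` prime factors `≤ log N` -/
def Exceptional (c : ℝ) (N : ℕ) (v : ℤ) (Z : Finset ℤ) : Prop := Z.card ≤ 3 ∧ ∀ s ∈ Z, ∃ d : ℤ, (d = 0 ∨ d = v) ∧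
  c * (Real.log N / Real.log (Real.log N)) ≤ ((((N : ℤ) + s + d).natAbs.primeFactors.filter (fun p : ℕ => (p : ℝ) ≤ Real.log N)).card : ℝ)

/-- the `x ∈ (N/4, N/2)` such that the member `i` is prime, the member `j` has at most two prime factors, all four members have only large prime
factors, and both pairs are isolated -/
def Sums (t N : ℕ) (a b : ℤ) (D D' : ℝ) (Z Z' : Finset ℤ) (i j : Fin 4) : Set ℕ :=
  {x : ℕ | N < 4 * x ∧ 2 * x < N ∧ (member N a b x i).natAbs.Prime ∧ AtMostTwo ((N : ℝ) ^ (1 / 9 : ℝ)) (member N a b x j) ∧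
    (∀ l, Rough ((N : ℝ) ^ (1 / (t : ℝ))) (member N a b x l)) ∧ PairIsolated D (Real.log N) a Z x ∧
    PairIsolated D' (Real.log N) b Z' ((N : ℤ) - x)}

theorem toSet {t N : ℕ} {a b : ℤ} {D D' y : ℝ} {Z Z' : Finset ℤ} {i j : Fin 4}
    (h : y ≤ ((Pool.Agent.Q117.LF.PtsT t N a b D D' Z Z' i j).card : ℝ)) : y ≤ ((Sums t N a b D D' Z Z' i j).ncard : ℝ) := by
  refine h.trans ?_
  rw [← Set.ncard_coe_finset]
  have hfin : (Sums t N a b D D' Z Z' i j).Finite := by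
    apply Set.Finite.subset (Set.finite_Iio (N + 1))
    intro x hx
    have h2 := hx.2.1
    simp only [Set.mem_Iio]
    omega
  have hsub : ((Pool.Agent.Q117.LF.PtsT t N a b D D' Z Z' i j : Finset ℕ) : Set ℕ) ⊆ Sums t N a b D D' Z Z' i j := by
    intro x hx
    unfold Pool.Agent.Q117.LF.PtsT at hx
    simp only [Finset.coe_filter, Set.mem_setOf_eq] at hx
    exact hx.2
  exact_mod_cast Set.ncard_le_ncard hsub hfin

theorem result : ∃ t : ℕ, 1 ≤ t ∧ ∃ c : ℝ, 0 < c ∧ ∃ N0 : ℕ, ∀ N : ℕ, N0 ≤ N → Even N → ∀ a b : ℤ, (a = 2 ∨ a = -2) → (b = 2 ∨ b = -2) →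
    (∃ x : ℕ, ∀ l, ¬ (3 : ℤ) ∣ member N a b x l) → ∀ D D' : ℝ, (D = c * R N ∧ D' = c * Real.log N ∨ D = c * Real.log N ∧ D' = c * R N) →
    ∀ i j : Fin 4, i.val ≤ 1 → i ≠ j → ∃ Z Z' : Finset ℤ, Exceptional c N b Z ∧ Exceptional c N a Z' ∧
      (N : ℝ) ^ (98 / 100 : ℝ) ≤ ((Sums t N a b D D' Z Z' i j).ncard : ℝ) := by
  obtain ⟨t, ht, c, hc, N0, h⟩ := Pool.Agent.Q117.LF.t55 Pool.Agent.Q117.LF.isoC
  refine ⟨t, ht, c, hc, N0, fun N hN hE a b ha hb h3 D D' hD i j hi hij => ?_⟩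
  obtain ⟨Z, Z', hZ, hZ', hh⟩ := h N hN hE a b ha hb h3 D D' hD i j hi hij
  exact ⟨Z, Z', hZ, hZ', toSet hh⟩

end Pool.Agent.Results.MP_c6d112_nt.IsolatedPairs
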