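import Pool.Agent.Q138.PS.UB
import Pool.Agent.Results.MP_c6d112_nt.TypicalLeastSummand

/-!
# The least summand in representations of the even numbers `2 ⌊α P(n)⌋` by two almost twin primes

Let `k ≥ 2`. Outside a set of real numbers of Hausdorff dimension at most `k / (k + 1 / (k 2 ^ (k - 1)))` (that is
`8 / 9` for `k = 2`) every `α > 0` has the following property, for all integral polynomials `P` of degree `k` at once: a
positive proportion of the numbers `M = 2 ⌊α P(n)⌋` are sums of two almost twin primes one of which is at most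
`12 (log M) ^ 2 (log log M) ^ 2`, and for all but a small proportion this fails with a small constant in place of `12`.
-/

set_option autoImplicit false

namespace Pool.Agent.Results.MP_c6d112_nt.LeastSummandRealMultiples

open Finset Filter Topology
open Pool.Agent.Q138.PS
open Pool.Agent.Results.MP_c6d112_nt.TypicalLeastSummand (AlmostTwin)

/-- `2 m` is a sum `p + s` of two almost twin primes with `s ≤ C (log 2 m) ^ 2 (log log 2 m) ^ 2` -/
def Small (r : ℕ) (C : ℝ) (m : ℕ) : Prop :=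
  ∃ p s : ℕ, p + s = 2 * m ∧ AlmostTwin r p ∧ AlmostTwin r s ∧
    (s : ℝ) ≤ C * (Real.log (2 * m : ℕ) ^ 2 * Real.log (Real.log (2 * m : ℕ)) ^ 2)

open Classical in
/-- the number of the `1 ≤ n ≤ N` for which `⌊α P(n)⌋` is `Small` -/
noncomputable def count (r : ℕ) (C α : ℝ) (P : Polynomial ℤ) (N : ℕ) : ℕ :=
  ((Icc 1 N).filter fun n : ℕ => Small r C ⌊α * ((P.eval (n : ℤ) : ℤ) : ℝ)⌋₊).card

theorem count_eq (r : ℕ) (C α : ℝ) (P : Polynomial ℤ) (N : ℕ) : (count r C α P N : ℝ) = cnP (Small r C) α P N := by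
  classical
  unfold count cnP cn
  refine congrArg _ (congrArg _ ?_)
  ext n
  simp only [mem_filter]

theorem g_mono {a b : ℕ} (hab : a ≤ b) (hb : 16 ≤ b) :
    Real.log a ^ 2 * Real.log (Real.log a) ^ 2 ≤ Real.log b ^ 2 * Real.log (Real.log b) ^ 2 := by
  have hexp : Real.exp 1 < 2.7182818286 := Real.exp_one_lt_d9
  have h16 : (2.7 : ℝ) ≤ Real.log b := by
    have h1 : Real.log 16 ≤ Real.log b := Real.log_le_log (by norm_num) (by exact_mod_cast hb)
    have h2 : Real.log 16 = 4 * Real.log 2 := by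
      rw [show (16 : ℝ) = 2 ^ 4 by norm_num, Real.log_pow]
      norm_num
    have h3 := Real.log_two_gt_d9
    linarith
  have h16' : (0.99 : ℝ) ≤ Real.log (Real.log b) := by
    rw [Real.le_log_iff_exp_le (by linarith)]
    have h1 : Real.exp 0.99 ≤ 2.7 := by
      have h2 : Real.exp (0.99 : ℝ) = Real.exp 1 * Real.exp (-0.01) := by
        rw [← Real.exp_add]
        norm_num
      have h3 : Real.exp (-0.01 : ℝ) ≤ 1 / 1.01 := by
        rw [Real.exp_neg, one_div]
        refine inv_anti₀ (by norm_num) ?_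
        have := Real.add_one_le_exp (0.01 : ℝ)
        linarith
      rw [h2]
      calc Real.exp 1 * Real.exp (-0.01) ≤ 2.7182818286 * (1 / 1.01) := by gcongr
        _ ≤ 2.7 := by norm_num
    linarith
  rcases Nat.lt_or_ge a 3 with ha | ha
  · have hR : (1 : ℝ) ≤ Real.log b ^ 2 * Real.log (Real.log b) ^ 2 := by
      have h1 : (2.7 : ℝ) ^ 2 ≤ Real.log b ^ 2 := by gcongr
      have h2 : (0.99 : ℝ) ^ 2 ≤ Real.log (Real.log b) ^ 2 := by gcongr
      nlinarith
    refine le_trans ?_ hR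
    interval_cases a
    · simp
    · simp
    · have h1 := Real.log_two_gt_d9
      have h2 := Real.log_two_lt_d9
      have h3 : Real.log (Real.log (2 : ℕ)) ^ 2 ≤ 1 := by
        rw [sq_le_one_iff_abs_le_one, abs_le]
        push_cast
        constructor
        · rw [Real.le_log_iff_exp_le (by linarith), Real.exp_neg]
          have h4 : (Real.exp 1)⁻¹ ≤ (2 : ℝ)⁻¹ := by
            refine inv_anti₀ (by norm_num) ?_
            have := Real.add_one_le_exp (1 : ℝ)
            linarith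
          linarith
        · have := Real.log_nonpos (x := Real.log 2) (by linarith) (by linarith)
          linarith
      have h4 : Real.log (2 : ℕ) ^ 2 ≤ 1 := by
        push_cast
        nlinarith
      calc Real.log (2 : ℕ) ^ 2 * Real.log (Real.log (2 : ℕ)) ^ 2 ≤ 1 * 1 := by
            gcongr
        _ = 1 := by norm_num
  · have h3 : (3 : ℝ) ≤ a := by exact_mod_cast ha
    have h1 : (1 : ℝ) ≤ Real.log a := by
      rw [Real.le_log_iff_exp_le (by linarith)]
      linarith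
    have h2 : Real.log a ≤ Real.log b := Real.log_le_log (by linarith) (by exact_mod_cast hab)
    have h4 : 0 ≤ Real.log (Real.log a) := Real.log_nonneg h1
    have h5 : Real.log (Real.log a) ≤ Real.log (Real.log b) := Real.log_le_log (by linarith) h2
    gcongr

theorem upper (r : ℕ) (hr : 1 ≤ r) (ε : ℝ) (hε : 0 < ε) : ∃ c : ℝ, 0 < c ∧
    ∀ᶠ y : ℕ in atTop, cn (Small r c) y ≤ ε * y := by
  classical
  obtain ⟨c, hc, X₀, h⟩ := Pool.Agent.Results.MP_c6d112_nt.TypicalLeastSummand.result.2.1 r hr (ε / 2) (by positivity)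
  refine ⟨c, hc, ?_⟩
  filter_upwards [eventually_ge_atTop X₀, eventually_ge_atTop 16] with y hy hy16
  have h1 := h (2 * y) (by omega) 0 {s : ℕ | AlmostTwin r s} (fun s hs => hs)
  refine le_trans ?_ (h1.trans (le_of_eq (by push_cast; ring)))
  unfold cn
  rw [← Set.ncard_coe_finset]
  refine Nat.cast_le.2 ?_
  refine Set.ncard_le_ncard_of_injOn (fun m => 2 * m) (fun m hm => ?_) (fun a _ b _ hab => by
      have : 2 * a = 2 * b := hab
      omega) ((Set.finite_Iic (0 + 2 * y)).subset fun n hn => hn.2.1)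
  rw [mem_coe, mem_filter, mem_Icc] at hm
  obtain ⟨⟨hm1, hm2⟩, p, s, h3, h4, h5, h6⟩ := hm
  have hm3 : 0 < 2 * m ∧ 2 * m ≤ 0 + 2 * y := by omega
  refine ⟨hm3.1, hm3.2, p, s, h3, h4, h5, Or.inr (h6.trans ?_)⟩
  have := g_mono (a := 2 * m) (b := 2 * y) (by omega) (by omega)
  gcongr

theorem lower : ∃ r : ℕ, 2 ≤ r ∧ ∃ c : ℝ, 0 < c ∧ ∀ᶠ y : ℕ in atTop, c * y ≤ cn (Small r 12) y := by
  classical
  obtain ⟨r, hr, c, hc, X₀, h⟩ := Pool.Agent.Results.MP_c6d112_nt.TypicalLeastSummand.result.2.2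
  refine ⟨r, hr, c / 3, by positivity, ?_⟩
  filter_upwards [eventually_ge_atTop (2 * X₀ + 1), eventually_ge_atTop 64] with y hy hy16
  have hX : X₀ ≤ y / 2 := by omega
  have h1 := h (y / 2) hX
  have h2 : c / 3 * y ≤ c * ((y / 2 : ℕ) : ℝ) := by
    have h3 : y ≤ 3 * (y / 2) := by omega
    have h4 : (y : ℝ) ≤ 3 * ((y / 2 : ℕ) : ℝ) := by exact_mod_cast h3
    nlinarith
  refine h2.trans (h1.trans ?_)
  unfold cn
  rw [← Set.ncard_coe_finset]
  refine Nat.cast_le.2 ?_
  refine Set.ncard_le_ncard_of_injOn (fun n => n / 2) (fun n hn => ?_) (fun a ha b hb hab => by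
      have h5 : a / 2 = b / 2 := hab
      obtain ⟨-, -, ⟨a', ha'⟩, -⟩ := ha
      obtain ⟨-, -, ⟨b', hb'⟩, -⟩ := hb
      omega) (Finset.finite_toSet _)
  obtain ⟨g1, g2, ⟨n', hn'⟩, p, s, h3, h4, h5, h6⟩ := hn
  have hm : 2 * (n / 2) = n := by omega
  have hm1 : 1 ≤ n / 2 ∧ n / 2 ≤ y := by omega
  change n / 2 ∈ ((((Icc 1 y).filter (Small r 12) : Finset ℕ)) : Set ℕ)
  rw [mem_coe, mem_filter, mem_Icc]
  refine ⟨hm1, p, s, by rw [hm]; exact h3, h4, h5, h6.trans ?_⟩
  rw [hm]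
  have := g_mono (a := y / 2) (b := n) (by omega) (by omega)
  gcongr

/-- **Theorem.** There are `r ≥ 2` and `c > 0` such that for each `k ≥ 2` there is a set `E` of Hausdorff dimension at most
`k / (k + 1 / (k 2 ^ (k - 1)))` such that for each `α > 0` outside `E`: for all large `N` and ALL `P ∈ ℤ[X]` of degree
`k` with positive leading coefficient and coefficients of size at most `N ^ η`, for at least `c N` of the `n ≤ N` the number
`M = 2 ⌊α P(n)⌋` is a sum of two almost twin primes one of which is at most `12 (log M) ^ 2 (log log M) ^ 2`; and for each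
`r' ≥ 1` and `ε > 0` there is `c' > 0` such that for at most `ε N` of the `n ≤ N` one of the summands can be at most
`c' (log M) ^ 2 (log log M) ^ 2`. -/
theorem result : ∃ r : ℕ, 2 ≤ r ∧ ∃ c : ℝ, 0 < c ∧ ∀ k : ℕ, 2 ≤ k →
    ∃ E : Set ℝ, dimH E ≤ ENNReal.ofReal (k / (k + 1 / ((k : ℝ) * 2 ^ (k - 1)))) ∧ ∀ α : ℝ, 0 < α → α ∉ E →
      (∃ η : ℝ, 0 < η ∧ ∀ᶠ N : ℕ in atTop, ∀ P : Polynomial ℤ,
        P.natDegree = k → 0 < P.leadingCoeff → (∀ j, |((P.coeff j : ℤ) : ℝ)| ≤ (N : ℝ) ^ η) →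
        c * N ≤ count r 12 α P N) ∧
      ∀ (r' : ℕ) (ε : ℝ), 1 ≤ r' → 0 < ε → ∃ c' η : ℝ, 0 < c' ∧ 0 < η ∧ ∀ᶠ N : ℕ in atTop, ∀ P : Polynomial ℤ,
        P.natDegree = k → 0 < P.leadingCoeff → (∀ j, |((P.coeff j : ℤ) : ℝ)| ≤ (N : ℝ) ^ η) →
        (count r' c' α P N : ℝ) ≤ ε * N := by
  classical
  obtain ⟨r, hr, c, hc, hlow⟩ := lower
  refine ⟨r, hr, c / 2, by positivity, fun k hk => ?_⟩
  obtain ⟨E1, hE1, h1⟩ := low_nat k hk (fun _ : Unit => Small r 12) (fun _ _ => True) (fun _ => c) (fun _ => cn_true_big)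
    (fun _ δ hδ => by
      filter_upwards [hlow] with y hy
      rw [cn_true]
      have : (0 : ℝ) ≤ y := Nat.cast_nonneg y
      nlinarith)
  have hs := fun i : ℕ × ℕ => upper (i.1 + 1) (by omega) (1 / (2 * ((i.2 : ℝ) + 1))) (by positivity)
  choose D hD hX using hs
  obtain ⟨E2, hE2, h2⟩ := dens_nat k hk (fun i : ℕ × ℕ => Small (i.1 + 1) (D i)) (fun i : ℕ × ℕ => 1 / (2 * ((i.2 : ℝ) + 1)))
    (fun i δ hδ => by
      filter_upwards [hX i] with y hy
      refine hy.trans ?_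
      have : (0 : ℝ) ≤ y := Nat.cast_nonneg y
      nlinarith)
  refine ⟨E1 ∪ E2, ?_, fun α hα hαE => ⟨?_, fun r' ε hr' hε => ?_⟩⟩
  · rw [dimH_union]
    exact max_le hE1 hE2
  · obtain ⟨η, hη, h3⟩ := h1 α hα (fun h => hαE (Or.inl h)) ()
    refine ⟨η, hη, ?_⟩
    filter_upwards [h3 (c / 2) (by positivity)] with N hN P hdeg hlead hco
    have h4 := (hN P hdeg hlead hco).1
    have h5 : cnP (fun _ => True) α P N = N := cn_true N
    rw [h5] at h4
    rw [count_eq]
    linarith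
  · obtain ⟨i, hi⟩ := exists_nat_one_div_lt hε
    obtain ⟨r', rfl⟩ : ∃ r'', r' = r'' + 1 := ⟨r' - 1, by omega⟩
    obtain ⟨η, hη, h3⟩ := h2 α hα (fun h => hαE (Or.inr h)) (r', i)
    refine ⟨D (r', i), η, hD (r', i), hη, ?_⟩
    filter_upwards [h3 (1 / (2 * ((i : ℝ) + 1))) (by positivity)] with N hN P hdeg hlead hco
    have h4 := hN P hdeg hlead hco
    rw [count_eq]
    refine h4.trans ?_
    have h5 : (1 / (2 * ((i : ℝ) + 1)) + 1 / (2 * ((i : ℝ) + 1))) = 1 / ((i : ℝ) + 1) := by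
      field_simp
      norm_num
    change (1 / (2 * ((i : ℝ) + 1)) + 1 / (2 * ((i : ℝ) + 1))) * (N : ℝ) ≤ ε * N
    rw [h5]
    have : (0 : ℝ) ≤ N := Nat.cast_nonneg N
    gcongr

end Pool.Agent.Results.MP_c6d112_nt.LeastSummandRealMultiples
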