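import Pool.Agent.Q253.Thin.FamilyS

/-!
# A set of almost twin primes with `O(log ^ 4 x)` elements up to `x`, which suffices for all even numbers

Dubner's conjecture says that every even `N > 4208` is a sum of two twin primes. We show that there are a `t` and one
set `S` of primes `p` such that `p + 2` or `p - 2` has no prime factor `≤ p ^ (1/t)`, with only `O(log ^ 4 x)` elements
up to `x`, such that every large even `N` is `p + m` with `p ∈ S`, `N / 8 < p ≤ N / 2`, where `m` is a prime or a product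
of two primes larger than `N ^ (1/9)` and `m + 2` or `m - 2` has no prime factor `≤ N ^ (1/t)`. There are at least
`c log N` such representations, for each of the sign patterns which are not excluded modulo `3`.

Libraries: `Y840.CT.GenF` (Chen's theorem for systems of shifts), `Y151.HS.FLC` (fundamental lemma), starting files.
-/

set_option autoImplicit false

namespace Pool.Agent.Results.MP_c6d112_nt.SparseAlmostTwins

open Finset Filter
open Pool.Agent.Y840.CT Pool.Agent.Q253.Thin

/-- all prime factors of `k` are larger than `z` -/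
def Free (z : ℝ) (k : ℤ) : Prop := ∀ q : ℕ, q.Prime → (q : ℤ) ∣ k → z < q

/-- `n` is a prime or a product of two primes, and all its prime factors are larger than `z` -/
def AlmostPrime (z : ℝ) (n : ℕ) : Prop :=
  (n.Prime ∨ ∃ a b : ℕ, a.Prime ∧ b.Prime ∧ n = a * b) ∧ ∀ q : ℕ, q.Prime → q ∣ n → z < q

/-- the signs fit to `N`: both are `2` or `-2`, and for some `p` none of the four numbers `p`, `p + s₁`, `N - p`,
`N - p + s₂` is divisible by `3` -/
def Fit (N s₁ s₂ : ℤ) : Prop := (s₁ = 2 ∨ s₁ = -2) ∧ (s₂ = 2 ∨ s₂ = -2) ∧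
  ∃ p : ℤ, ¬ (3 : ℤ) ∣ p ∧ ¬ (3 : ℤ) ∣ p + s₁ ∧ ¬ (3 : ℤ) ∣ N - p ∧ ¬ (3 : ℤ) ∣ N - p + s₂

theorem fit_exists (N : ℤ) : ∃ s₁ s₂ : ℤ, Fit N s₁ s₂ := by
  have h3 : N % 3 = 0 ∨ N % 3 = 1 ∨ N % 3 = 2 := by omega
  rcases h3 with h | h | h
  · exact ⟨2, -2, Or.inl rfl, Or.inr rfl, 2, by omega, by omega, by omega, by omega⟩
  · exact ⟨2, 2, Or.inl rfl, Or.inl rfl, 2, by omega, by omega, by omega, by omega⟩
  · exact ⟨-2, -2, Or.inr rfl, Or.inr rfl, 1, by omega, by omega, by omega, by omega⟩

/-- the shifts -/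
def G (N s₁ s₂ : ℤ) : Finset ℤ := {-s₁, N, N + s₂}

lemma rho_lt {N : ℕ} (hN : Even N) {s₁ s₂ : ℤ} (hf : Fit N s₁ s₂) {q : ℕ} (hq : q.Prime) : rho (G N s₁ s₂) q < q := by
  obtain ⟨h1, h2, p, p1, p2, p3, p4⟩ := hf
  have hNe : (2 : ℤ) ∣ N := by exact_mod_cast hN.two_dvd
  have hcard : rho (G N s₁ s₂) q ≤ 4 := by
    unfold rho G
    refine card_image_le.trans ((card_insert_le _ _).trans ?_)
    have : ({-s₁, (N : ℤ), N + s₂} : Finset ℤ).card ≤ 3 := card_le_three
    omega
  rcases Nat.lt_or_ge q 5 with h5 | h5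
  · interval_cases q
    · exact absurd hq Nat.not_prime_zero
    · exact absurd hq Nat.not_prime_one
    · -- all shifts are even
      have : (insert 0 (G N s₁ s₂)).image (fun h : ℤ => h % ((2 : ℕ) : ℤ)) ⊆ {0} := by
        intro z hz
        rw [mem_image] at hz
        obtain ⟨h, hh, rfl⟩ := hz
        unfold G at hh
        simp only [mem_insert, mem_singleton] at hh
        rw [mem_singleton]
        push_cast
        rcases h1 with rfl | rfl <;> rcases h2 with rfl | rfl <;> rcases hh with rfl | rfl | rfl | rfl <;> omega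
      have := card_le_card this
      unfold rho
      rw [card_singleton] at this
      omega
    · have : (insert 0 (G N s₁ s₂)).image (fun h : ℤ => h % ((3 : ℕ) : ℤ)) ⊆ ({0, 1, 2} : Finset ℤ).erase (p % 3) := by
        intro z hz
        rw [mem_image] at hz
        obtain ⟨h, hh, rfl⟩ := hz
        unfold G at hh
        simp only [mem_insert, mem_singleton] at hh
        rw [mem_erase]
        push_cast
        constructor
        · rcases hh with rfl | rfl | rfl | rfl <;> omega
        · simp only [mem_insert, mem_singleton]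
          omega
      have h6 := card_le_card this
      have h7 : p % 3 ∈ ({0, 1, 2} : Finset ℤ) := by
        simp only [mem_insert, mem_singleton]
        omega
      rw [card_erase_of_mem h7] at h6
      have h8 : ({0, 1, 2} : Finset ℤ).card = 3 := by decide
      unfold rho
      omega
    · exact absurd hq (by norm_num)
  · omega

lemma sysG {N X : ℕ} (hN0 : N ≠ 0) (hN : Even N) (hX : N ≤ X) {s₁ s₂ : ℤ} (hf : Fit N s₁ s₂) :
    SysF 3 X (fun _ => G N s₁ s₂) N where
  card q _ := card_le_three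
  ne := by exact_mod_cast hN0
  size := by
    rw [abs_of_nonneg (by positivity)]
    exact_mod_cast hX
  mem q _ := by simp [G]
  loc q hq := rho_lt hN hf hq

lemma sysT {s : ℤ} (hs : s = 2 ∨ s = -2) : SysS 3 (fun _ => {-s}) where
  card q _ := by simp
  loc q hq := by
    rw [rho_single]
    split_ifs with h
    · exact hq.one_lt
    · rcases hq.two_le.eq_or_lt with h2 | h2
      · exfalso
        apply h
        rw [← h2]
        rcases hs with rfl | rfl <;> norm_num
      · exact h2

/-- **A sparse set of almost twin primes for all even numbers.** There are `t ≥ 1`, `c, C > 0` and a set `S` of primes `p`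
such that `p + 2` or `p - 2` has no prime factor `≤ p ^ (1/t)`, with at most `C log ^ 4 x` elements up to `x`, such that for
all large even `N` and ALL signs `s₁, s₂` which fit to `N` (there are such signs for every `N`) at least `c log N`
primes `p ∈ S` with `N / 8 < p ≤ N / 2` have the property: `N - p` is a prime or a product of two primes
`> N ^ (1/9)`, and `p + s₁`, `N - p + s₂` have no prime factor `≤ N ^ (1/t)`. -/
theorem result : (∀ N : ℤ, ∃ s₁ s₂ : ℤ, Fit N s₁ s₂) ∧
    ∃ (t : ℕ) (c C : ℝ) (S : Set ℕ), 1 ≤ t ∧ 0 < c ∧ 0 < C ∧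
    (∀ p ∈ S, p.Prime ∧ (Free ((p : ℝ) ^ (1 / (t : ℝ))) (p + 2) ∨ Free ((p : ℝ) ^ (1 / (t : ℝ))) (p - 2))) ∧
    (∀ x : ℕ, 2 ≤ x → ∃ T : Finset ℕ, (∀ p ∈ S, p ≤ x → p ∈ T) ∧ (T.card : ℝ) ≤ C * Real.log x ^ 4) ∧
    ∃ N₀ : ℕ, ∀ N : ℕ, N₀ ≤ N → Even N → ∀ s₁ s₂ : ℤ, Fit N s₁ s₂ → ∃ T : Finset ℕ,
      (∀ p ∈ T, p ∈ S ∧ N < 8 * p ∧ 2 * p ≤ N ∧ Free ((N : ℝ) ^ (1 / (t : ℝ))) (p + s₁) ∧
        AlmostPrime ((N : ℝ) ^ (1 / 9 : ℝ)) (N - p) ∧ Free ((N : ℝ) ^ (1 / (t : ℝ))) (N - p + s₂)) ∧
      c * Real.log N ≤ T.card := by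
  classical
  refine ⟨fit_exists, ?_⟩
  obtain ⟨t0, ht0, c0, hc0, hgen, -⟩ := genF 3
  set t := max t0 9 with htdef
  have ht1 : 1 ≤ t := ht0.trans (le_max_left _ _)
  have ht9 : 9 ≤ t := le_max_right _ _
  have ht0' : (0 : ℝ) < t := by exact_mod_cast ht1
  obtain ⟨C0, hC0, hup⟩ := upperS 3 t ht1
  obtain ⟨cV, hcV, hVlow⟩ := VF_low 3
  obtain ⟨C2, hC2, hVup⟩ := VF_two
  obtain ⟨X₁, hX₁⟩ := hgen (1 / 8) (by norm_num)
  obtain ⟨X₂, hX₂⟩ := hup (1 / 8) (by norm_num)
  obtain ⟨X₃, hX₃⟩ := PI_upper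
  obtain ⟨X₄, hX₄⟩ := PI_lower
  set ε : ℝ := min (c0 / 2) 1 with hε
  have hε0 : 0 < ε := by positivity
  have e1 : ε ≤ c0 / 2 := min_le_left _ _
  have e2 : ε ≤ 1 := min_le_right _ _
  obtain ⟨K, hK, X₅, hX₅⟩ := familyS 3 t ht1 2 (1 / 8) ε (by norm_num) hε0
  -- `K log ^ 4` primes are available
  obtain ⟨X₆, hX₆⟩ : ∃ X₆ : ℕ, ∀ x : ℕ, X₆ ≤ x → K * 16 * Real.log x ^ 4 ≤ ((PI x (2 * x)).card : ℝ) := by
    have h2 := (isLittleO_log_rpow_rpow_atTop (s := 1) ((5 : ℕ) : ℝ) (by norm_num)).def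
      (show (0 : ℝ) < 1 / (32 * K) by positivity)
    obtain ⟨x₂, h₂⟩ := eventually_atTop.1 (tendsto_natCast_atTop_atTop (R := ℝ) |>.eventually h2)
    refine ⟨max (max X₄ x₂) 3, fun x hx => ?_⟩
    have g1 := hX₄ x ((le_max_left _ _).trans ((le_max_left _ _).trans hx))
    have g2 := h₂ x ((le_max_right _ _).trans ((le_max_left _ _).trans hx))
    have g3 : 3 ≤ x := (le_max_right _ _).trans hx
    have hx0 : (0 : ℝ) < x := by exact_mod_cast (by omega : 0 < x)
    have hl : 0 < Real.log x := Real.log_pos (by exact_mod_cast (by omega : 1 < x))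
    rw [Real.rpow_natCast, Real.rpow_one, Real.norm_of_nonneg (by positivity), Real.norm_of_nonneg hx0.le,
      div_mul_eq_mul_div, one_mul, le_div_iff₀ (by positivity)] at g2
    refine le_trans ?_ g1
    rw [← mul_div_assoc, le_div_iff₀ hl]
    have h3 : K * 16 * Real.log x ^ 4 * Real.log x = Real.log x ^ 5 * (32 * K) / 2 := by ring
    rw [h3]
    linarith
  -- the sets at the scales `x = 2 ^ i`
  set M : ℕ := max (max (max X₁ X₂) (max X₃ X₄)) (max (max X₅ X₆) 8) with hM
  have step : ∀ i : ℕ, ∃ S : Finset ℕ, (∀ p ∈ S, p.Prime ∧ 2 ^ i < p ∧ p ≤ 2 * 2 ^ i ∧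
      (Free ((p : ℝ) ^ (1 / (t : ℝ))) (p + 2) ∨ Free ((p : ℝ) ^ (1 / (t : ℝ))) (p - 2))) ∧
      (S.card : ℝ) ≤ 64 * K * (C0 + 1) * C2 * i ^ 3 ∧ (M ≤ i → ∀ N : ℕ, Even N → 4 * 2 ^ i ≤ N → N ≤ 8 * 2 ^ i →
        ∀ s₁ s₂ : ℤ, Fit N s₁ s₂ → ∃ T : Finset ℕ, (∀ p ∈ T, p ∈ S ∧ Free ((N : ℝ) ^ (1 / (t : ℝ))) (p + s₁) ∧
          AlmostPrime ((N : ℝ) ^ (1 / 9 : ℝ)) (N - p) ∧ Free ((N : ℝ) ^ (1 / (t : ℝ))) (N - p + s₂)) ∧
          c0 * K * cV / 256 * Real.log ((2 ^ i : ℕ) : ℝ) ≤ T.card) := by
    intro i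
    by_cases hi : M ≤ i
    swap
    · refine ⟨∅, by simp, ?_, fun hi' => absurd hi' hi⟩
      rw [card_empty, Nat.cast_zero]
      positivity
    set x : ℕ := 2 ^ i with hx
    have hMx : M ≤ x := hi.trans Nat.lt_two_pow_self.le
    have hx1 : X₁ ≤ x := le_trans (le_trans (le_max_left _ _) (le_max_left _ _)) ((le_max_left _ _).trans hMx)
    have hx2 : X₂ ≤ x := le_trans (le_trans (le_max_right _ _) (le_max_left _ _)) ((le_max_left _ _).trans hMx)
    have hx3 : X₃ ≤ x := le_trans (le_trans (le_max_left _ _) (le_max_right _ _)) ((le_max_left _ _).trans hMx)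
    have hx4 : X₄ ≤ x := le_trans (le_trans (le_max_right _ _) (le_max_right _ _)) ((le_max_left _ _).trans hMx)
    have hx5 : X₅ ≤ x := le_trans (le_trans (le_max_left _ _) (le_max_left _ _)) ((le_max_right _ _).trans hMx)
    have hx6 : X₆ ≤ x := le_trans (le_trans (le_max_right _ _) (le_max_left _ _)) ((le_max_right _ _).trans hMx)
    have hx8 : 8 ≤ x := le_trans (le_max_right _ _) ((le_max_right _ _).trans hMx)
    have hxr : (8 : ℝ) ≤ x := by exact_mod_cast hx8
    have hx0 : (0 : ℝ) < x := by linarith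
    have hl : 0 < Real.log x := Real.log_pos (by linarith)
    have hlX : Real.log ((8 * x : ℕ) : ℝ) ≤ 2 * Real.log x := by
      have h1 : ((8 * x : ℕ) : ℝ) ≤ (x : ℝ) ^ 2 := by
        push_cast
        nlinarith
      have h2 := Real.log_le_log (by positivity) h1
      rwa [Real.log_pow, Nat.cast_ofNat] at h2
    have hlX0 : 0 < Real.log ((8 * x : ℕ) : ℝ) := Real.log_pos (by exact_mod_cast (by omega : 1 < 8 * x))
    have hlX1 : Real.log x ≤ Real.log ((8 * x : ℕ) : ℝ) :=
      Real.log_le_log hx0 (by exact_mod_cast (by omega : x ≤ 8 * x))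
    set m : ℝ := K * 16 * Real.log x ^ 4 with hm
    have hm0 : 0 < m := by positivity
    have hmP : m ≤ (PI x (2 * x)).card := hX₆ x hx6
    have hP0 : (0 : ℝ) < (PI x (2 * x)).card := lt_of_lt_of_le hm0 hmP
    have hPlow := hX₄ x hx4
    have hPup := hX₃ (8 * x) (by omega) x (2 * x) (by omega)
    have hAB : (1 / 8 : ℝ) * ((8 * x : ℕ) : ℝ) ≤ ((2 * x : ℕ) : ℝ) - x := by
      push_cast
      linarith
    have hABe : ((2 * x : ℕ) : ℝ) - x = x := by
      push_cast
      ring
    -- `m / |P|`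
    have hp1 : m * (Real.log x / (16 * x)) ≤ m / (PI x (2 * x)).card := by
      rw [div_eq_mul_inv m]
      apply mul_le_mul_of_nonneg_left _ hm0.le
      rw [← one_div, div_le_div_iff₀ (by positivity) hP0]
      rw [← mul_div_assoc, le_div_iff₀ hlX0] at hPup
      push_cast at hPup
      have h2 := mul_le_mul_of_nonneg_left hlX1 hP0.le
      push_cast at h2
      linarith
    have hp2 : m / (PI x (2 * x)).card ≤ m * (2 * Real.log x / x) := by
      rw [div_eq_mul_inv m]
      apply mul_le_mul_of_nonneg_left _ hm0.le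
      rw [← one_div, div_le_div_iff₀ hP0 (by positivity)]
      have h2 : (x : ℝ) / 2 ≤ (PI x (2 * x)).card * Real.log x := by
        have h3 := mul_le_mul_of_nonneg_right hPlow hl.le
        have h4 : 1 / 2 * ((x : ℝ) / Real.log x) * Real.log x = x / 2 := by
          field_simp
        rw [h4] at h3
        exact h3
      linarith
    set I1 : Finset (ℕ × ℤ × ℤ) := ((Icc (4 * x) (8 * x)) ×ˢ ({2, -2} : Finset ℤ) ×ˢ ({2, -2} : Finset ℤ)).filter
      (fun i => Even i.1 ∧ Fit i.1 i.2.1 i.2.2) with hI1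
    set I : Finset ((ℕ × ℤ × ℤ) ⊕ ℤ) := I1.disjSum ({2, -2} : Finset ℤ) with hI
    set F : (ℕ × ℤ × ℤ) ⊕ ℤ → ℕ → Finset ℤ :=
      Sum.elim (fun i => fun _ => G i.1 i.2.1 i.2.2) (fun s => fun _ => {-s}) with hF
    set R : (ℕ × ℤ × ℤ) ⊕ ℤ → Finset ℕ :=
      Sum.elim (fun i => GoodF t (8 * x) x (2 * x) (fun _ => G i.1 i.2.1 i.2.2) i.1)
        (fun s => SF t (8 * x) x (2 * x) (fun _ => {-s})) with hR
    have hI1m : ∀ i ∈ I1, Even i.1 ∧ 4 * x ≤ i.1 ∧ i.1 ≤ 8 * x ∧ Fit i.1 i.2.1 i.2.2 := by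
      intro i hi
      rw [hI1, mem_filter, mem_product, mem_Icc] at hi
      exact ⟨hi.2.1, hi.1.1.1, hi.1.1.2, hi.2.2⟩
    obtain ⟨S, hSP, hScard, hSR⟩ := hX₅ (8 * x) (by omega) x (2 * x) (by omega) hAB ((ℕ × ℤ × ℤ) ⊕ ℤ) I F R (by
      rintro (i | s) hi
      · rw [hI, inl_mem_disjSum] at hi
        obtain ⟨h1, h2, h3, h4⟩ := hI1m i hi
        have hs := sysG (N := i.1) (X := 8 * x) (by omega) h1 h3 h4
        exact ⟨hs.card, hs.loc⟩
      · rw [hI, inr_mem_disjSum] at hi
        simp only [mem_insert, mem_singleton] at hi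
        exact sysT hi) (by
      rintro (i | s) hi
      · exact GoodF_SF _ _ _ _ _ _
      · exact Subset.refl _) (by
      rw [hI, card_disjSum]
      have h1 : I1.card ≤ (4 * x + 1) * (2 * 2) := by
        refine (card_filter_le _ _).trans ?_
        rw [card_product, card_product, Nat.card_Icc]
        have : ({2, -2} : Finset ℤ).card = 2 := by decide
        rw [this]
        apply Nat.mul_le_mul_right
        omega
      have h2 : ({2, -2} : Finset ℤ).card = 2 := by decide
      rw [h2]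
      nlinarith) m (by
      rw [hm]
      have h1 : Real.log ((8 * x : ℕ) : ℝ) ^ (3 + 1) ≤ 16 * Real.log x ^ 4 := by
        calc _ ≤ (2 * Real.log x) ^ 4 := pow_le_pow_left₀ hlX0.le hlX 4
          _ = _ := by ring
      have := mul_le_mul_of_nonneg_left h1 hK.le
      linarith) hmP
    refine ⟨S ∩ (SF t (8 * x) x (2 * x) (fun _ => {-2}) ∪ SF t (8 * x) x (2 * x) (fun _ => {-(-2)})), ?_, ?_, ?_⟩
    · intro p hp
      rw [mem_inter] at hp
      have hpP := hSP hp.1
      unfold PI at hpP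
      rw [mem_filter, mem_Ioc] at hpP
      refine ⟨hpP.2, hpP.1.1, hpP.1.2, ?_⟩
      have hpz : (p : ℝ) ^ (1 / (t : ℝ)) ≤ ((8 * x : ℕ) : ℝ) ^ (1 / (t : ℝ)) := by
        apply Real.rpow_le_rpow (by positivity) _ (by positivity)
        exact_mod_cast (by omega : p ≤ 8 * x)
      rcases mem_union.1 hp.2 with h | h
      · left
        unfold SF at h
        rw [mem_filter] at h
        intro q hq hd
        by_contra hcon
        push Not at hcon
        apply h.2.2.2 q hq (hcon.trans hpz) (-2) (by simp)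
        have : (-2 : ℤ) - p = -((p : ℤ) + 2) := by ring
        rw [this]
        exact (dvd_neg).2 hd
      · right
        unfold SF at h
        rw [mem_filter] at h
        intro q hq hd
        by_contra hcon
        push Not at hcon
        apply h.2.2.2 q hq (hcon.trans hpz) (-(-2)) (by simp)
        have : (-(-2) : ℤ) - p = -((p : ℤ) - 2) := by ring
        rw [this]
        exact (dvd_neg).2 hd
    · -- the number of elements
      have hT : ∀ s : ℤ, (s = 2 ∨ s = -2) → ((S ∩ SF t (8 * x) x (2 * x) (fun _ => {-s})).card : ℝ) ≤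
          32 * K * (C0 + 1) * C2 * Real.log x ^ 3 := by
        intro s hs
        have h1 := hSR (Sum.inr s) (by
          rw [hI, inr_mem_disjSum]
          simpa using hs)
        have h2 : R (Sum.inr s) = SF t (8 * x) x (2 * x) (fun _ => {-s}) := rfl
        have h3 : F (Sum.inr s) = fun _ => {-s} := rfl
        rw [h2, h3] at h1
        have h4 := hX₂ (8 * x) (by omega) _ (sysT hs) x (2 * x) (by omega) hAB
        have h5 : VF (fun _ => {-s}) (8 * x) ≤ C2 / Real.log x ^ 2 := by
          refine (hVup (-s) (by rcases hs with rfl | rfl <;> simp) (8 * x) (by omega)).trans ?_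
          apply div_le_div_of_nonneg_left hC2.le (by positivity)
          exact pow_le_pow_left₀ hl.le hlX1 2
        have hV0 : 0 ≤ VF (fun _ => {-s}) (8 * x) := (VF_mono (sysT hs).loc le_rfl).2
        have hp0 : 0 ≤ m / ((PI x (2 * x)).card : ℝ) := by positivity
        have h6 := (abs_le.1 h1).2
        have h7 := mul_le_mul_of_nonneg_left h4 hp0
        have h8 : 0 ≤ m / (PI x (2 * x)).card * ((((2 * x : ℕ) : ℝ) - x) * VF (fun _ => {-s}) (8 * x)) := by
          rw [hABe]
          positivity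
        have h9 := mul_le_mul_of_nonneg_right e2 h8
        have h10 : ((S ∩ SF t (8 * x) x (2 * x) (fun _ => {-s})).card : ℝ) ≤
            (C0 + 1) * (m / (PI x (2 * x)).card * ((((2 * x : ℕ) : ℝ) - x) * VF (fun _ => {-s}) (8 * x))) := by
          linarith
        refine h10.trans ?_
        rw [hABe]
        have h11 : m / (PI x (2 * x)).card * (x * VF (fun _ => {-s}) (8 * x)) ≤
            m * (2 * Real.log x / x) * (x * (C2 / Real.log x ^ 2)) :=
          mul_le_mul hp2 (mul_le_mul_of_nonneg_left h5 hx0.le) (by positivity) (by positivity)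
        refine (mul_le_mul_of_nonneg_left h11 (by positivity)).trans (le_of_eq ?_)
        rw [hm]
        field_simp
        ring
      have h1 := hT 2 (Or.inl rfl)
      have h2 := hT (-2) (Or.inr rfl)
      have h3 : ((S ∩ (SF t (8 * x) x (2 * x) (fun _ => {-2}) ∪ SF t (8 * x) x (2 * x) (fun _ => {-(-2)}))).card : ℝ) ≤
          ((S ∩ SF t (8 * x) x (2 * x) (fun _ => {-2})).card : ℝ) +
          ((S ∩ SF t (8 * x) x (2 * x) (fun _ => {-(-2)})).card : ℝ) := by
        rw [inter_union_distrib_left]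
        exact_mod_cast card_union_le _ _
      have h4 : Real.log x ^ 3 ≤ (i : ℝ) ^ 3 := by
        apply pow_le_pow_left₀ hl.le
        rw [hx]
        push_cast
        rw [Real.log_pow]
        have := Real.log_two_lt_d9
        have h0 : (0 : ℝ) ≤ i := Nat.cast_nonneg i
        nlinarith
      have h5 := mul_le_mul_of_nonneg_left h4 (show 0 ≤ 64 * K * (C0 + 1) * C2 by positivity)
      linarith
    · intro _ N hNe hN4 hN8 s₁ s₂ hf
      have hN2 : 2 ≤ N := by omega
      have hsys := sysG (N := N) (X := 8 * x) (by omega) hNe hN8 hf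
      have hmem : (Sum.inl (N, s₁, s₂) : (ℕ × ℤ × ℤ) ⊕ ℤ) ∈ I := by
        rw [hI, inl_mem_disjSum, hI1, mem_filter, mem_product, mem_product, mem_Icc]
        exact ⟨⟨⟨hN4, hN8⟩, by simpa using hf.1, by simpa using hf.2.1⟩, hNe, hf⟩
      have h1 := hSR _ hmem
      have h2 : R (Sum.inl (N, s₁, s₂)) = GoodF t (8 * x) x (2 * x) (fun _ => G N s₁ s₂) N := rfl
      have h3 : F (Sum.inl (N, s₁, s₂)) = fun _ => G N s₁ s₂ := rfl
      rw [h2, h3] at h1
      have g1 := hX₁ (8 * x) (by omega) _ _ hsys x (2 * x) (by omega) hAB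
      have g3 : ((GoodF t0 (8 * x) x (2 * x) (fun _ => G N s₁ s₂) N).card : ℝ) ≤
          (GoodF t (8 * x) x (2 * x) (fun _ => G N s₁ s₂) N).card := by
        exact_mod_cast card_le_card (GoodF_t ht0 (le_max_left _ _) (by omega) _ _)
      have hp0 : 0 ≤ m / ((PI x (2 * x)).card : ℝ) := by positivity
      have hV := hVlow (8 * x) (by omega) _ hsys.card hsys.loc
      have hV0 : 0 ≤ VF (fun _ => G N s₁ s₂) (8 * x) := (VF_mono hsys.loc le_rfl).2
      set E : ℝ := m / (PI x (2 * x)).card * ((((2 * x : ℕ) : ℝ) - x) * VF (fun _ => G N s₁ s₂) (8 * x)) with hE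
      have hE0 : 0 ≤ E := by
        rw [hE, hABe]
        positivity
      have g4 : c0 * E ≤ m / (PI x (2 * x)).card * (GoodF t (8 * x) x (2 * x) (fun _ => G N s₁ s₂) N).card := by
        have := mul_le_mul_of_nonneg_left (g1.trans g3) hp0
        refine le_trans (le_of_eq ?_) this
        rw [hE]
        ring
      have g5 := (abs_le.1 h1).1
      have g6 := mul_le_mul_of_nonneg_right e1 hE0
      have g7 : c0 / 2 * E ≤ ((S ∩ GoodF t (8 * x) x (2 * x) (fun _ => G N s₁ s₂) N).card : ℝ) := by linarith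
      have g8 : K * cV / 128 * Real.log x ≤ E := by
        rw [hE, hABe]
        have h4 : cV / (2 * Real.log x) ^ 4 ≤ VF (fun _ => G N s₁ s₂) (8 * x) := by
          refine le_trans ?_ hV
          apply div_le_div_of_nonneg_left hcV.le (by positivity)
          exact pow_le_pow_left₀ hlX0.le hlX 4
        have h5 : m * (Real.log x / (16 * x)) * (x * (cV / (2 * Real.log x) ^ 4)) ≤
            m / (PI x (2 * x)).card * (x * VF (fun _ => G N s₁ s₂) (8 * x)) :=
          mul_le_mul hp1 (mul_le_mul_of_nonneg_left h4 hx0.le) (by positivity) hp0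
        refine le_trans ?_ h5
        rw [hm]
        have h6 : K * 16 * Real.log x ^ 4 * (Real.log x / (16 * x)) * (x * (cV / (2 * Real.log x) ^ 4)) =
            K * cV / 16 * Real.log x := by
          field_simp
          ring
        rw [h6]
        have : 0 ≤ K * cV * Real.log x := by positivity
        linarith
      refine ⟨S ∩ GoodF t (8 * x) x (2 * x) (fun _ => G N s₁ s₂) N, ?_, ?_⟩
      · intro p hp
        rw [mem_inter] at hp
        have hpg := hp.2
        unfold GoodF at hpg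
        rw [mem_filter, mem_Ioc] at hpg
        obtain ⟨⟨p1, p2⟩, pp, pt, ⟨pr1, pr2, pr3⟩, pF⟩ := hpg
        have hNz : (N : ℝ) ^ (1 / (t : ℝ)) ≤ ((8 * x : ℕ) : ℝ) ^ (1 / (t : ℝ)) :=
          Real.rpow_le_rpow (by positivity) (by exact_mod_cast hN8) (by positivity)
        have hNz9 : (N : ℝ) ^ (1 / 9 : ℝ) ≤ ((8 * x : ℕ) : ℝ) ^ (1 / 9 : ℝ) :=
          Real.rpow_le_rpow (by positivity) (by exact_mod_cast hN8) (by positivity)
        have hfree : ∀ h ∈ G N s₁ s₂, ∀ k : ℤ, (k = h - p ∨ k = -(h - p)) → Free ((N : ℝ) ^ (1 / (t : ℝ))) k := by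
          intro h hh k hk q hq hd
          by_contra hcon
          push Not at hcon
          apply pF q hq (hcon.trans hNz) h hh
          rcases hk with rfl | rfl
          · exact hd
          · exact (dvd_neg).1 hd
        have hs1 : s₁ = 2 ∨ s₁ = -2 := hf.1
        refine ⟨mem_inter.2 ⟨hp.1, ?_⟩, ?_, ?_, ?_⟩
        · have hSF : p ∈ SF t (8 * x) x (2 * x) (fun _ => {-s₁}) := by
            unfold SF
            rw [mem_filter, mem_Ioc]
            refine ⟨⟨p1, p2⟩, pp, pt, ?_⟩
            intro q hq hqX h hh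
            rw [mem_singleton] at hh
            rw [hh]
            exact pF q hq hqX (-s₁) (by simp [G])
          rcases hs1 with rfl | rfl
          · exact mem_union_left _ hSF
          · exact mem_union_right _ hSF
        · exact hfree (-s₁) (by simp [G]) _ (Or.inr (by ring))
        · have e : (N : ℤ) - p = ((N - p : ℕ) : ℤ) := by
            rw [Nat.cast_sub (by omega)]
          rw [e, Int.natAbs_natCast] at pr2
          refine ((P2_iff (by omega) _).2 ⟨pr2, fun q hq hd => ?_⟩ :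
            P2 ((N : ℝ) ^ (1 / 9 : ℝ)) (N - p))
          refine lt_of_le_of_lt hNz9 (pr3 q hq ?_)
          rw [e]
          exact_mod_cast hd
        · exact hfree (N + s₂) (by simp [G]) _ (Or.inl (by ring))
      · refine le_trans ?_ g7
        have := mul_le_mul_of_nonneg_left g8 (show 0 ≤ c0 / 2 by positivity)
        refine le_trans (le_of_eq ?_) this
        ring
  choose S hS hSc hSN using step
  have hl2 : 0 < Real.log 2 := Real.log_pos (by norm_num)
  refine ⟨t, c0 * K * cV / 512, 128 * K * (C0 + 1) * C2 / Real.log 2 ^ 4, {p | ∃ i, p ∈ S i}, ht1, by positivity,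
    by positivity, ?_, ?_, ?_⟩
  · rintro p ⟨i, hi⟩
    obtain ⟨h1, _, _, h2⟩ := hS i p hi
    exact ⟨h1, h2⟩
  · intro x hx
    set L := Nat.log 2 x with hL
    have hL1 : 1 ≤ L := (Nat.le_log_iff_pow_le (by norm_num) (by omega)).2 (by simpa using hx)
    refine ⟨(range (L + 1)).biUnion S, ?_, ?_⟩
    · rintro p ⟨i, hi⟩ hpx
      rw [mem_biUnion]
      refine ⟨i, ?_, hi⟩
      rw [mem_range]
      have h1 := (hS i p hi).2.1
      have h2 : 2 ^ i ≤ x := by omega
      have h3 : i ≤ L := (Nat.le_log_iff_pow_le (by norm_num) (by omega)).2 h2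
      omega
    · have h1 : (((range (L + 1)).biUnion S).card : ℝ) ≤ ∑ i ∈ range (L + 1), ((S i).card : ℝ) := by
        exact_mod_cast card_biUnion_le
      refine h1.trans ?_
      have h2 : ∑ i ∈ range (L + 1), ((S i).card : ℝ) ≤
          ∑ _i ∈ range (L + 1), 64 * K * (C0 + 1) * C2 * (L : ℝ) ^ 3 := by
        apply sum_le_sum
        intro i hi
        rw [mem_range] at hi
        refine (hSc i).trans ?_
        apply mul_le_mul_of_nonneg_left _ (by positivity)
        apply pow_le_pow_left₀ (by positivity)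
        exact_mod_cast (by omega : i ≤ L)
      refine h2.trans ?_
      rw [sum_const, card_range, nsmul_eq_mul]
      push_cast
      have hLr : (1 : ℝ) ≤ L := by exact_mod_cast hL1
      have h3 : (L : ℝ) * Real.log 2 ≤ Real.log x := by
        have h4 : 2 ^ L ≤ x := Nat.pow_log_le_self 2 (by omega)
        have h5 : ((2 : ℝ)) ^ L ≤ x := by exact_mod_cast h4
        have h6 := Real.log_le_log (by positivity) h5
        rwa [Real.log_pow] at h6
      have h4 : (L : ℝ) ≤ Real.log x / Real.log 2 := by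
        rw [le_div_iff₀ hl2]
        exact h3
      have h5 : (L : ℝ) ^ 4 ≤ (Real.log x / Real.log 2) ^ 4 := pow_le_pow_left₀ (by positivity) h4 4
      calc ((L : ℝ) + 1) * (64 * K * (C0 + 1) * C2 * (L : ℝ) ^ 3) ≤ (2 * L) * (64 * K * (C0 + 1) * C2 * (L : ℝ) ^ 3) := by
            apply mul_le_mul_of_nonneg_right _ (by positivity)
            linarith
        _ = 128 * K * (C0 + 1) * C2 * (L : ℝ) ^ 4 := by ring
        _ ≤ 128 * K * (C0 + 1) * C2 * (Real.log x / Real.log 2) ^ 4 := mul_le_mul_of_nonneg_left h5 (by positivity)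
        _ = _ := by rw [div_pow]; ring
  · refine ⟨64 * 2 ^ M, ?_⟩
    intro N hN hNe s₁ s₂ hf
    have hM0 : 0 < 2 ^ M := by positivity
    have hN64 : 64 ≤ N := by omega
    set l := Nat.log 2 N with hl
    have hl6 : M + 6 ≤ l := by
      apply (Nat.le_log_iff_pow_le (by norm_num) (by omega)).2
      rw [pow_add]
      omega
    set i := l - 2 with hi
    have hil : l = i + 2 := by omega
    have h1 : 2 ^ l ≤ N := Nat.pow_log_le_self 2 (by omega)
    have h2 : N < 2 ^ (l + 1) := Nat.lt_pow_succ_log_self (by norm_num) N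
    have h3 : 4 * 2 ^ i ≤ N := by
      rw [hil, pow_add] at h1
      omega
    have h4 : N < 8 * 2 ^ i := by
      rw [hil, show i + 2 + 1 = i + 3 by ring, pow_add] at h2
      omega
    obtain ⟨T, hT, hTc⟩ := hSN i (by omega) N hNe h3 h4.le s₁ s₂ hf
    refine ⟨T, ?_, ?_⟩
    · intro p hp
      obtain ⟨a1, a2, a3, a4⟩ := hT p hp
      obtain ⟨_, b2, b3, _⟩ := hS i p a1
      exact ⟨⟨i, a1⟩, by omega, by omega, a2, a3, a4⟩
    · refine le_trans ?_ hTc
      have h6 : (N : ℝ) ≤ ((2 ^ i : ℕ) : ℝ) ^ 2 := by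
        have h7 : 8 ≤ 2 ^ i := by
          calc 8 = 2 ^ 3 := by norm_num
            _ ≤ 2 ^ i := Nat.pow_le_pow_right (by norm_num) (by omega)
        have h8 : N ≤ (2 ^ i) ^ 2 := by nlinarith
        exact_mod_cast h8
      have hN0 : (0 : ℝ) < N := by exact_mod_cast (by omega : 0 < N)
      have h7 := Real.log_le_log hN0 h6
      rw [Real.log_pow, Nat.cast_ofNat] at h7
      have h8 : 0 < c0 * K * cV / 512 := by positivity
      have h9 := mul_le_mul_of_nonneg_left h7 h8.le
      linarith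

end Pool.Agent.Results.MP_c6d112_nt.SparseAlmostTwins
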